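import Pool.Agent.Work.MP_807b32_lc.TS.NMain

/-!
Entropy is bounded by the mean distance; a multiplicative choice of the scale.
-/

namespace Pool.Agent.Work.MP_807b32_lc.TQ

open Finset Pool.Agent.Work.MP_807b32_lc.TS
open scoped Classical

variable {α Γ : Type} [Fintype α] [DecidableEq α] [Fintype Γ] {l w : ℕ} (s : Setup Γ α l w)

omit [Fintype Γ] in
theorem dif_sub {J : Finset (Fin l)} {D : Finset α} {z x : Om Γ α} (hx : x ∈ s.cl J D z) :
    dif z x ⊆ D := fun _ hi => (s.Plant_dif (Setup.mem_cl.1 hx).2 (mem_dif.1 hi)).1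

omit [Fintype Γ] in
theorem sum_dif (J : Finset (Fin l)) (D : Finset α) (z : Om Γ α) {η : ℝ} (h0 : 0 < η) :
    ∑ x ∈ s.cl J D z, η ^ (dif z x).card ≤ Real.exp (η * D.card) := by
  have hinj : Set.InjOn (dif z) (s.cl J D z : Set (Om Γ α)) := by
    intro x hx y hy h
    have h1 := (Setup.mem_cl.1 (mem_coe.1 hx)).2.2.1
    have h2 := (Setup.mem_cl.1 (mem_coe.1 hy)).2.2.1
    refine Prod.ext (h1.symm.trans h2) (funext fun i => ?_)
    have h3 : z.2 i ≠ x.2 i ↔ z.2 i ≠ y.2 i := by rw [← mem_dif, ← mem_dif, h]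
    revert h3
    cases z.2 i <;> cases x.2 i <;> cases y.2 i <;> simp
  calc _ = ∑ W ∈ (s.cl J D z).image (dif z), η ^ W.card :=
        (sum_image (f := fun W : Finset α => η ^ W.card) hinj).symm
    _ ≤ ∑ W ∈ D.powerset, η ^ W.card := by
        refine sum_le_sum_of_subset_of_nonneg (fun W hW => ?_) fun _ _ _ => by positivity
        obtain ⟨x, hx, rfl⟩ := mem_image.1 hW
        exact mem_powerset.2 (dif_sub s hx)
    _ = (1 + η) ^ D.card := by
        have := Finset.prod_one_add (s := D) (f := fun _ => η)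
        simp only [prod_const] at this
        exact this.symm
    _ ≤ Real.exp η ^ D.card :=
        pow_le_pow_left₀ (by positivity) (by linarith [Real.add_one_le_exp η]) _
    _ = _ := by rw [← Real.exp_nat_mul, mul_comm]

omit [Fintype Γ] in
theorem lN_le_md (J : Finset (Fin l)) (D : Finset α) {z : Om Γ α} (hz : z ∈ s.X) {η : ℝ}
    (h0 : 0 < η) : s.lN J D z ≤ -Real.log η * s.md J D z + η * D.card := by
  have hN : (0 : ℝ) < (s.cl J D z).card := Nat.cast_pos.2 (Setup.card_cl_pos J D hz)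
  have hne : (s.cl J D z).Nonempty := ⟨z, Setup.self_mem_cl J D hz⟩
  have h1 : ∀ x ∈ s.cl J D z, Real.log η * ((dif z x).card : ℝ) + (s.lN J D z - η * D.card) ≤
      (s.cl J D z).card * Real.exp (-(η * D.card)) * η ^ (dif z x).card - 1 := by
    intro x _
    have h2 := Real.log_le_sub_one_of_pos (show 0 < (s.cl J D z).card * Real.exp (-(η * D.card)) *
      η ^ (dif z x).card by positivity)
    rw [Real.log_mul (by positivity) (by positivity), Real.log_mul hN.ne' (Real.exp_pos _).ne',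
      Real.log_exp, Real.log_pow] at h2
    unfold Setup.lN
    linarith
  have h2 := av_mono h1
  simp only [av_add, av_sub, av_mul, av_const hne] at h2
  have h3 : (s.cl J D z).card * Real.exp (-(η * D.card)) *
      av (s.cl J D z) (fun x => η ^ (dif z x).card) ≤ 1 := by
    have h4 := mul_le_mul_of_nonneg_left (sum_dif s J D z h0) (Real.exp_pos (-(η * D.card))).le
    rw [← Real.exp_add, neg_add_cancel, Real.exp_zero] at h4
    refine le_trans (le_of_eq ?_) h4
    unfold av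
    field_simp
  unfold Setup.md
  linarith

omit [Fintype Γ] in
theorem Phi_le_uu (hX : s.X.Nonempty) {q p η : ℝ} (hq0 : 0 ≤ q) (hq1 : q ≤ 1) (hp0 : 0 ≤ p)
    (hp1 : p ≤ 1) (h0 : 0 < η) :
    s.Phi q p ≤ -Real.log η * s.uu q p + η * (p * Fintype.card α) := by
  have h := Ex_mono hq0 hq1 fun J => Ex_mono hp0 hp1 fun D =>
    (av_mono fun z hz => lN_le_md s J D hz h0 : av s.X (s.lN J D) ≤ _)
  simp only [av_add, av_mul, av_const hX, Ex_add, Ex_mul, Ex_const, Setup.step_card] at h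
  exact h

omit [Fintype Γ] in
theorem uu_le (hX : s.X.Nonempty) {q p : ℝ} (hq0 : 0 ≤ q) (hq1 : q ≤ 1) (hp0 : 0 ≤ p)
    (hp1 : p ≤ 1) : s.uu q p ≤ p * Fintype.card α := by
  refine Ex_le hq0 hq1 fun J => ?_
  rw [← Setup.step_card]
  refine Ex_mono hp0 hp1 fun D => av_le hX fun z hz => ?_
  exact av_le ⟨z, Setup.self_mem_cl J D hz⟩ fun x hx => Nat.cast_le.2 (card_le_card (dif_sub s hx))

theorem pigeon (h : ℕ → ℕ → ℝ) (S R : ℕ) (hR : 0 < R) (Λ : ℝ)
    (hd0 : ∀ t e, e + 1 ≤ S + 1 + R → 0 ≤ h t (e + 1) - h t e)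
    (hr : ∀ t ≤ S, h t (t + R) - h t t ≤ Λ) :
    ∃ ρ < R, ∀ t ≤ S, h t (t + ρ + 1) - h t (t + ρ) ≤ ((S : ℝ) + 1) / R * Λ := by
  have hR' : (0 : ℝ) < R := by exact_mod_cast hR
  have hsum : ∑ ρ ∈ range R, ∑ t ∈ range (S + 1), (h t (t + ρ + 1) - h t (t + ρ)) ≤
      ∑ _ρ ∈ range R, ((S : ℝ) + 1) / R * Λ := by
    rw [Finset.sum_comm, Finset.sum_const, Finset.card_range, nsmul_eq_mul]
    have h1 : ∀ t ∈ range (S + 1), ∑ ρ ∈ range R, (h t (t + ρ + 1) - h t (t + ρ)) ≤ Λ :=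
      fun t ht => by
        have ht' := Finset.mem_range.1 ht
        have h2 := Finset.sum_range_sub (fun ρ => h t (t + ρ)) R
        simp only [← add_assoc, add_zero] at h2
        rw [h2]
        exact hr t (by omega)
    refine (Finset.sum_le_sum h1).trans (le_of_eq ?_)
    rw [Finset.sum_const, Finset.card_range, nsmul_eq_mul]
    push_cast
    field_simp
  obtain ⟨ρ, hρ, hρ'⟩ := Finset.exists_le_of_sum_le ⟨0, Finset.mem_range.2 hR⟩ hsum
  have hρR := Finset.mem_range.1 hρ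
  exact ⟨ρ, hρR, fun t ht => le_trans (Finset.single_le_sum
    (f := fun t => h t (t + ρ + 1) - h t (t + ρ))
    (fun u hu => hd0 u (u + ρ) (by have := Finset.mem_range.1 hu; omega))
    (Finset.mem_range.2 (by omega))) hρ'⟩

theorem log_eta (S : ℕ) : -Real.log ((1 / 100 : ℝ) ^ (S + 1)) ≤ 5 * ((S : ℝ) + 1) := by
  have h1 : (100 : ℝ) ≤ Real.exp 5 := by
    have h1 : (2.7 : ℝ) ^ 5 ≤ Real.exp 1 ^ 5 :=
      pow_le_pow_left₀ (by norm_num) (by have := Real.exp_one_gt_d9; linarith only [this]) 5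
    rw [← Real.exp_nat_mul] at h1
    norm_num at h1 ⊢
    linarith only [h1]
  have h2 : Real.log 100 ≤ 5 := (Real.log_le_iff_le_exp (by norm_num)).2 h1
  rw [Real.log_pow, one_div, Real.log_inv]
  push_cast
  have : (0 : ℝ) ≤ (S : ℝ) + 1 := by positivity
  nlinarith

/-- At a suitable shift the information defect is small compared with the mean distance. -/
theorem exists_shift2 (hX : s.X.Nonempty) (hn : 0 < Fintype.card α) (q : ℕ → ℝ)
    (hq0 : ∀ t, 0 ≤ q t) (hq1 : ∀ t, q t ≤ 1) (S R : ℕ) (hR : 16800 * (S + 1) ^ 3 ≤ R)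
    {P : ℝ} (hP0 : 0 < P) (hP1 : 2 ^ (S + 1 + R) * P ≤ 1) :
    ∃ ρ < R, ∀ t ≤ S,
      (1 / 100) ^ (S + 1) * (2 ^ (t + ρ) * P * Fintype.card α) ≤ s.uu (q t) (2 ^ (t + ρ) * P) →
      s.Phi (q t) (2 ^ (t + ρ + 1) * P) - 2 * s.Phi (q t) (2 ^ (t + ρ) * P) ≤
        s.uu (q t) (2 ^ (t + ρ) * P) / 100 := by
  have hR0 : 0 < R := lt_of_lt_of_le (by positivity) hR
  have hn' : (0 : ℝ) < Fintype.card α := Nat.cast_pos.2 hn
  have hlog := log_eta S
  obtain ⟨η, hη⟩ : ∃ η : ℝ, η = (1 / 100) ^ (S + 1) := ⟨_, rfl⟩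
  rw [← hη] at hlog ⊢
  have hη0 : 0 < η := by rw [hη]; positivity
  have hη1 : η ≤ 1 := by rw [hη]; exact pow_le_one₀ (by norm_num) (by norm_num)
  have hle : ∀ e, e ≤ S + 1 + R → (2 : ℝ) ^ e * P ≤ 1 := fun e he =>
    le_trans (mul_le_mul_of_nonneg_right (pow_le_pow_right₀ (by norm_num) he) hP0.le) hP1
  have hpos : ∀ e : ℕ, (0 : ℝ) < 2 ^ e * P := fun e => by positivity
  obtain ⟨g, hg⟩ : ∃ g : ℕ → ℕ → ℝ, ∀ t e, g t e = s.Phi (q t) (2 ^ e * P) / (2 ^ e * P) :=
    ⟨_, fun _ _ => rfl⟩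
  have hg0 : ∀ t e, e ≤ S + 1 + R → 0 ≤ g t e := fun t e he => by
    rw [hg]
    exact div_nonneg (s.Phi_nonneg (hq0 t) (hq1 t) (hpos e).le (hle e he)) (hpos e).le
  have hg1 : ∀ t e, e ≤ S + 1 + R → g t e ≤ Fintype.card α := fun t e he => by
    rw [hg, div_le_iff₀ (hpos e), mul_comm (Fintype.card α : ℝ)]
    exact s.Phi_le (hq0 t) (hq1 t) (hpos e).le (hle e he)
  have hgap : ∀ t e, s.Phi (q t) (2 ^ (e + 1) * P) - 2 * s.Phi (q t) (2 ^ e * P) =
      (g t (e + 1) - g t e) * (2 * (2 ^ e * P)) := fun t e => by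
    rw [hg, hg]
    have := hP0.ne'
    field_simp
    ring
  have hd0 : ∀ t e, e + 1 ≤ S + 1 + R → 0 ≤ g t (e + 1) - g t e := fun t e he => by
    have h := s.gap_nonneg (hq0 t) (hq1 t) (hpos (e + 1)).le (hle (e + 1) he)
    rw [show (2 : ℝ) ^ (e + 1) * P / 2 = 2 ^ e * P by ring, hgap] at h
    exact nonneg_of_mul_nonneg_left h (by positivity)
  have hηn : 0 < η * Fintype.card α := mul_pos hη0 hn'
  obtain ⟨ρ, hρ, hs⟩ := pigeon (fun t e => Real.log (g t e + η * Fintype.card α)) S R hR0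
    (6 * ((S : ℝ) + 1))
    (fun t e he => sub_nonneg.2 (Real.log_le_log (by linarith [hg0 t e (by omega)])
      (by linarith [hd0 t e he])))
    (fun t ht => by
      have h1 : Real.log (g t (t + R) + η * Fintype.card α) ≤ Real.log (2 * Fintype.card α) :=
        Real.log_le_log (by linarith [hg0 t (t + R) (by omega)])
          (by nlinarith [hg1 t (t + R) (by omega)])
      have h2 : Real.log (η * Fintype.card α) ≤ Real.log (g t t + η * Fintype.card α) :=
        Real.log_le_log hηn (by linarith [hg0 t t (by omega)])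
      rw [Real.log_mul (by norm_num) hn'.ne'] at h1
      rw [Real.log_mul hη0.ne' hn'.ne'] at h2
      have h3 := Real.log_two_lt_d9
      have h4 : (0 : ℝ) ≤ S := Nat.cast_nonneg _
      linarith)
  refine ⟨ρ, hρ, fun t ht hU => ?_⟩
  have h1 := hs t ht
  have hS1 : (1 : ℝ) ≤ (S : ℝ) + 1 := by linarith [(Nat.cast_nonneg S : (0 : ℝ) ≤ S)]
  have hε : ((S : ℝ) + 1) / R * (6 * ((S : ℝ) + 1)) ≤ 1 / (2800 * ((S : ℝ) + 1)) := by
    have hR' : (0 : ℝ) < R := by exact_mod_cast hR0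
    have h2 : (16800 : ℝ) * ((S : ℝ) + 1) ^ 3 ≤ R := by exact_mod_cast hR
    rw [div_mul_eq_mul_div, div_le_div_iff₀ hR' (by positivity)]
    nlinarith
  have hΦ := Phi_le_uu s hX (hq0 t) (hq1 t) (hpos (t + ρ)).le (hle (t + ρ) (by omega)) hη0
  have hb0 := hg0 t (t + ρ) (by omega)
  have hab := hd0 t (t + ρ) (by omega)
  have hgΦ : g t (t + ρ) * (2 ^ (t + ρ) * P) = s.Phi (q t) (2 ^ (t + ρ) * P) := by
    rw [hg]
    exact div_mul_cancel₀ _ (hpos _).ne'
  rw [hgap]
  have hp := hpos (t + ρ)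
  generalize s.uu (q t) (2 ^ (t + ρ) * P) = U at hU hΦ ⊢
  generalize s.Phi (q t) (2 ^ (t + ρ) * P) = Φ at hΦ hgΦ
  generalize (2 : ℝ) ^ (t + ρ) * P = p at hU hΦ hgΦ hp ⊢
  generalize g t (t + ρ + 1) = a at h1 hab ⊢
  generalize g t (t + ρ) = b at h1 hab hb0 hgΦ ⊢
  generalize (S : ℝ) + 1 = T at h1 hS1 hε hlog
  obtain ⟨m, hm⟩ : ∃ m, m = η * Fintype.card α := ⟨_, rfl⟩
  have hU' : m * p ≤ U := by rw [hm]; linarith
  have hΦ' : Φ ≤ -Real.log η * U + m * p := by rw [hm]; linarith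
  rw [← hm] at h1 hηn
  have hU0 : 0 ≤ U := le_trans (by positivity) hU'
  have ha : 0 < a + m := by linarith
  have hb : 0 < b + m := by linarith
  have h2 := Real.one_sub_inv_le_log_of_pos (div_pos ha hb)
  rw [Real.log_div ha.ne' hb.ne', inv_div] at h2
  have h3 : 1 - (b + m) / (a + m) ≤ 1 / (2800 * T) := h2.trans (h1.trans hε)
  have h4 : (a - b) * (2800 * T) ≤ a + m := by
    have e : 1 - (b + m) / (a + m) = (a - b) / (a + m) := by field_simp; ring
    rw [e, div_le_div_iff₀ ha (by positivity)] at h3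
    linarith
  have h5 : (a - b) * (1400 * T) ≤ b + m := by nlinarith
  have h6 : (b + m) * p ≤ 7 * T * U := by
    have := mul_le_mul_of_nonneg_right hlog hU0
    nlinarith
  have h7 : (a - b) * (1400 * T) * p ≤ 7 * T * U :=
    (mul_le_mul_of_nonneg_right h5 hp.le).trans h6
  have h8 : T * ((a - b) * (2 * p)) ≤ T * (U / 100) := by linarith
  exact le_of_mul_le_mul_left h8 (by linarith)

theorem levels2 (hX : s.X.Nonempty) (hn0 : 0 < Fintype.card α) {K : ℝ} (hK1 : 1 ≤ K)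
    (hK : (l : ℝ) * w ≤ K * Fintype.card α) (S R : ℕ) (hR : 16800 * (S + 1) ^ 3 ≤ R)
    {P : ℝ} (hP0 : 0 < P) (hP1 : 2 ^ (S + 1 + R) * P ≤ 1)
    (hΔ : Real.log (Fintype.card (Om Γ α) / s.X.card) ≤ P * Fintype.card α / 20) :
    ∃ p : ℝ, P ≤ p ∧ p ≤ 2 ^ (S + 1 + R) * P ∧
      (1 / 100) ^ (S + 1) * (p / 2 * Fintype.card α) ≤ s.uu (Real.exp (-tau K S)) (p / 2) ∧
      s.Phi (Real.exp (-tau K S)) p - 2 * s.Phi (Real.exp (-tau K S)) (p / 2) ≤
        s.uu (Real.exp (-tau K S)) (p / 2) / 100 := by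
  have hK0 : 0 < K := by linarith only [hK1]
  have hq0 : ∀ t, 0 < Real.exp (-tau K t) := fun t => Real.exp_pos _
  have hq1 : ∀ t, Real.exp (-tau K t) ≤ 1 := fun t =>
    Real.exp_le_one_iff.2 (by have := tau_pos hK1 t; linarith only [this])
  obtain ⟨ρ, hρ, hgap⟩ := exists_shift2 s hX hn0 (fun t => Real.exp (-tau K t))
    (fun t => (hq0 t).le) hq1 S R hR hP0 hP1
  have hle : ∀ e, e ≤ S + 1 + R → (2 : ℝ) ^ e * P ≤ 2 ^ (S + 1 + R) * P := fun e he =>
    mul_le_mul_of_nonneg_right (pow_le_pow_right₀ (by norm_num) he) hP0.le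
  have hge : ∀ e : ℕ, P ≤ (2 : ℝ) ^ e * P := fun e =>
    le_mul_of_one_le_left hP0.le (one_le_pow₀ (by norm_num))
  have hn : (0 : ℝ) ≤ Fintype.card α := Nat.cast_nonneg _
  have hgap' : ∀ t ≤ S, (1 / 100) ^ (t + 1) * (2 ^ (t + ρ + 1) * P / 2 * Fintype.card α) ≤
      s.uu (Real.exp (-tau K t)) (2 ^ (t + ρ + 1) * P / 2) →
      s.Phi (Real.exp (-tau K t)) (2 ^ (t + ρ + 1) * P) -
        2 * s.Phi (Real.exp (-tau K t)) (2 ^ (t + ρ + 1) * P / 2) ≤
        s.uu (Real.exp (-tau K t)) (2 ^ (t + ρ + 1) * P / 2) / 100 := fun t ht => by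
    rw [show (2 : ℝ) ^ (t + ρ + 1) * P / 2 = 2 ^ (t + ρ) * P by ring]
    refine fun h => hgap t ht (le_trans (mul_le_mul_of_nonneg_right ?_ (by positivity)) h)
    exact pow_le_pow_of_le_one (by norm_num) (by norm_num) (by omega)
  have he5 : Real.exp (-5) ≤ 1 / 100 := by
    rw [Real.exp_neg, one_div]
    refine inv_anti₀ (by norm_num) ?_
    have h1 : (2.7 : ℝ) ^ 5 ≤ Real.exp 1 ^ 5 :=
      pow_le_pow_left₀ (by norm_num) (by have := Real.exp_one_gt_d9; linarith only [this]) 5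
    rw [← Real.exp_nat_mul] at h1
    norm_num at h1 ⊢
    linarith only [h1]
  have hind : ∀ t ≤ S, (1 / 100) ^ (t + 1) * (2 ^ (t + ρ + 1) * P / 2 * Fintype.card α) ≤
      s.uu (Real.exp (-tau K t)) (2 ^ (t + ρ + 1) * P / 2) := by
    intro t
    induction t with
    | zero =>
      intro _
      rw [show (2 : ℝ) ^ (0 + ρ + 1) * P / 2 = 2 ^ ρ * P by ring]
      have hb := s.base hX (hq0 0).le (hq1 0) (le_trans hP0.le (hge ρ))
        ((hle ρ (by omega)).trans hP1) hK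
      have h1 : 1 - Real.exp (-tau K 0) ≤ 1 / (40 * K) := by
        have := Real.add_one_le_exp (-tau K 0)
        rw [← tau_zero]
        linarith only [this]
      have h2 : 4 * (1 - Real.exp (-tau K 0)) * K ≤ 1 / 10 := by
        have := mul_le_mul_of_nonneg_right h1 hK0.le
        rw [show 1 / (40 * K) * K = 1 / 40 by field_simp] at this
        linarith only [this]
      have h3 := mul_le_mul_of_nonneg_right h2
        (show (0 : ℝ) ≤ 2 ^ ρ * P * Fintype.card α by positivity)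
      have h4 := mul_le_mul_of_nonneg_right (hge ρ) hn
      linarith only [hΔ, hb, h3, h4]
    | succ t ih =>
      intro ht
      have ih' := ih (by omega)
      have hg := hgap' t (by omega) ih'
      rw [show (2 : ℝ) ^ (t + 1 + ρ + 1) * P / 2 = 2 ^ (t + ρ + 1) * P by ring]
      have hτ := tau_pos hK1 t
      have hp0 : (0 : ℝ) ≤ 2 ^ (t + ρ + 1) * P := by positivity
      have hy : (0 : ℝ) ≤ (5 * t + 10) / tau K t := by positivity
      have hs := s.step hX (hq0 t) (hq1 t) (Real.exp_pos (-(tau K (t + 1) - tau K t))).le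
        (Real.exp_le_one_iff.2 (by have := tau_le_succ hK1 t; linarith only [this])) hp0
        ((hle (t + ρ + 1) (by omega)).trans hP1) hy
      rw [← Real.exp_add, show -tau K t + -(tau K (t + 1) - tau K t) = -tau K (t + 1) by ring,
        ← Real.exp_mul] at hs
      have h1 : 1 - Real.exp (-(tau K (t + 1) - tau K t)) ≤ tau K t / (200 * (t + 2)) := by
        have := Real.add_one_le_exp (-(tau K (t + 1) - tau K t))
        have := tau_succ_sub hK1 t
        linarith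
      have h2 : 1 / 5 ≤ 2 / 5 -
          8 * (1 - Real.exp (-(tau K (t + 1) - tau K t))) * ((5 * t + 10) / tau K t) := by
        have := mul_le_mul_of_nonneg_right h1 hy
        rw [show tau K t / (200 * (t + 2)) * ((5 * t + 10) / tau K t) = 1 / 40 by
          field_simp; ring] at this
        linarith only [this]
      have h3 : Real.exp (-tau K t * ((5 * t + 10) / tau K t)) ≤ (1 / 100) ^ (t + 1) / 100 := by
        rw [show -tau K t * ((5 * t + 10) / tau K t) = ((t + 2 : ℕ) : ℝ) * (-5) by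
          push_cast; field_simp; ring, Real.exp_nat_mul]
        refine (pow_le_pow_left₀ (Real.exp_pos _).le he5 _).trans (le_of_eq ?_)
        ring
      have hm : (0 : ℝ) ≤ 2 ^ (t + ρ + 1) * P * Fintype.card α := by (clear * - hP0; positivity)
      have hb0 : (0 : ℝ) ≤ (1 / 100) ^ (t + 1) := by positivity
      rw [pow_succ (1 / 100 : ℝ) (t + 1)]
      rw [show (2 : ℝ) ^ (t + ρ + 1) * P / 2 * Fintype.card α =
        2 ^ (t + ρ + 1) * P * Fintype.card α / 2 by ring] at ih'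
      generalize (2 : ℝ) ^ (t + ρ + 1) * P * Fintype.card α = m at *
      generalize (1 / 100 : ℝ) ^ (t + 1) = b at *
      have hbm := mul_nonneg hb0 hm
      have h5 := mul_le_mul_of_nonneg_right h2 (le_trans (by linarith only [hbm]) ih')
      have h6 := mul_le_mul_of_nonneg_left h3 hm
      linarith only [hg, hs, hbm, h5, h6, ih']
  exact ⟨2 ^ (S + ρ + 1) * P, hge _, hle _ (by omega), hind S le_rfl,
    hgap' S le_rfl (hind S le_rfl)⟩

end Pool.Agent.Work.MP_807b32_lc.TQ
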