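import Pool.Agent.Work.MP_807b32_lc.TQ.A
import Pool.Agent.Work.MP_807b32_lc.InP.Move

/-!
The explicit time-space tradeoff for nondeterministic programs.
-/

namespace Pool.Agent.Work.MP_807b32_lc.TQ

open Finset Pool.Agent.Work.MP_807b32_lc.TS Pool.Agent.Work.MP_807b32_lc.InP
open scoped Classical

theorem exists_level2 : ∃ C : ℕ, ∀ K : ℕ, 2 ≤ K → ∃ S : ℕ, S + 1 ≤ K ^ C ∧
    512 * (40 * ((S : ℝ) + 2)) * K * Real.exp (-tau K S) ≤ 1 := by
  obtain ⟨F, hF0, hF⟩ : ∃ F : ℝ, 0 < F ∧ ∀ x : ℝ, 0 ≤ x → x ^ (200 + 1) / F ≤ Real.exp x :=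
    ⟨((200 + 1).factorial : ℝ), Nat.cast_pos.2 (Nat.factorial_pos _),
      fun x hx => Real.pow_div_factorial_le_exp x hx (200 + 1)⟩
  obtain ⟨c, hc⟩ := pow_unbounded_of_one_lt (40960 * F * 40 ^ (200 + 1)) (one_lt_two (α := ℝ))
  refine ⟨(c + (200 + 1 + 1)) * 200 + 1, fun K hK => ?_⟩
  have hK2 : (2 : ℝ) ≤ K := by exact_mod_cast hK
  have hK0 : (0 : ℝ) < K := by linarith
  obtain ⟨N, hNd⟩ : ∃ N : ℕ, N = K ^ (c + (200 + 1 + 1)) := ⟨_, rfl⟩
  have hN : 40960 * K * F * (40 * (K : ℝ)) ^ (200 + 1) ≤ N := by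
    have h1 : (2 : ℝ) ^ c ≤ K ^ c := pow_le_pow_left₀ (by norm_num) hK2 c
    have h2 : (0 : ℝ) ≤ (K : ℝ) ^ (200 + 1 + 1) := by positivity
    calc _ = 40960 * F * 40 ^ (200 + 1) * (K : ℝ) ^ (200 + 1 + 1) := by
          rw [mul_pow, pow_succ (K : ℝ) (200 + 1)]
          generalize (K : ℝ) ^ (200 + 1) = u
          generalize (40 : ℝ) ^ (200 + 1) = v
          ring
      _ ≤ (K : ℝ) ^ c * (K : ℝ) ^ (200 + 1 + 1) := mul_le_mul_of_nonneg_right (hc.le.trans h1) h2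
      _ = N := by rw [hNd, Nat.cast_pow, pow_add (K : ℝ) c]
  have hN0' : 0 < N := by rw [hNd]; positivity
  have hN0 : (0 : ℝ) < N := by exact_mod_cast hN0'
  have hN1 : 1 ≤ N ^ 200 := Nat.one_le_pow _ _ hN0'
  obtain ⟨M, hM⟩ : ∃ M : ℕ, N ^ 200 = M + 1 := ⟨N ^ 200 - 1, by omega⟩
  have hM' : (N : ℝ) ^ 200 = M + 1 := by exact_mod_cast hM
  refine ⟨2 * M, ?_, ?_⟩
  · rw [pow_succ, pow_mul, ← hNd, hM]
    nlinarith
  have hS : ((2 * M : ℕ) : ℝ) + 2 = 2 * (N : ℝ) ^ 200 := by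
    rw [hM']
    push_cast
    ring
  have htau : tau K (2 * M) = N / (40 * K) := by
    unfold tau
    rw [hS, mul_div_cancel_left₀ _ (by norm_num : (2 : ℝ) ≠ 0)]
    have := Real.pow_rpow_inv_natCast hN0.le (n := 200) (by norm_num)
    rw [show (1 / 200 : ℝ) = ((200 : ℕ) : ℝ)⁻¹ by norm_num, this]
    ring
  rw [hS, htau, Real.exp_neg, ← div_eq_mul_inv, div_le_one (Real.exp_pos _)]
  refine le_trans ?_ (hF _ (by positivity))
  rw [div_pow, div_div, le_div_iff₀ (by positivity), pow_succ (N : ℝ) 200]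
  have hp : (0 : ℝ) < (N : ℝ) ^ 200 := by positivity
  generalize (N : ℝ) ^ 200 = u at hp ⊢
  generalize (40 * (K : ℝ)) ^ (200 + 1) = v at hN ⊢
  have := mul_le_mul_of_nonneg_left hN hp.le
  linarith only [this]

theorem tau_le {K : ℝ} (hK : 1 ≤ K) (S : ℕ) : tau K S ≤ (S : ℝ) + 1 := by
  have hS : (0 : ℝ) ≤ S := Nat.cast_nonneg _
  have h1 : (((S : ℝ) + 2) / 2) ^ (1 / 200 : ℝ) ≤ ((S : ℝ) + 2) / 2 :=
    Real.rpow_le_self_of_one_le (by linarith) (by norm_num)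
  have h2 : 1 / (40 * K) ≤ 1 := by
    rw [div_le_one (by linarith)]
    linarith
  unfold tau
  exact (mul_le_mul h2 h1 (by positivity) (by norm_num)).trans (by linarith)

theorem core2 (K S D : ℕ) (hK : 1 ≤ K)
    (hS : 512 * (40 * ((S : ℝ) + 2)) * K * Real.exp (-tau K S) ≤ 1)
    (hD : D = 100 ^ (S + 1) * (128 * (40 * (S + 2)) * 2 ^ (S + 1 + 16800 * (S + 1) ^ 3)))
    (α Γ : Type) [Fintype α] [DecidableEq α] [Fintype Γ] (w : ℕ) (s : Setup Γ α (40 * D ^ 2) w)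
    (f : Om Γ α → Prop) (hf : Disp f)
    (hyb : ∀ h : Om Γ α, (∀ j, ∃ z ∈ s.X, On (s.A j z) z h) → f h)
    (hlw : 40 * D ^ 2 * w ≤ K * Fintype.card α) (hn : 400 * D ^ 3 ≤ Fintype.card α) :
    (s.X.card : ℝ) ≤ Real.exp (-(1 / (20 * D) * Fintype.card α)) * Fintype.card (Om Γ α) := by
  have hK1 : (1 : ℝ) ≤ K := by exact_mod_cast hK
  obtain ⟨R, hR⟩ : ∃ R : ℕ, R = 16800 * (S + 1) ^ 3 := ⟨_, rfl⟩
  obtain ⟨r, hr⟩ : ∃ r : ℕ, r = 40 * (S + 2) := ⟨_, rfl⟩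
  rw [← hR, ← hr] at hD
  have hr' : (r : ℝ) = 40 * (S + 2) := by rw [hr]; push_cast; ring
  have hr1 : 1 ≤ r := by omega
  have hr1' : (1 : ℝ) ≤ r := by exact_mod_cast hr1
  have hD' : (D : ℝ) = 100 ^ (S + 1) * (128 * r * 2 ^ (S + 1 + R)) := by
    rw [hD]; push_cast; ring
  have h2p : (1 : ℝ) ≤ 2 ^ (S + 1 + R) := one_le_pow₀ (by norm_num)
  have h100 : (1 : ℝ) ≤ 100 ^ (S + 1) := one_le_pow₀ (by norm_num)
  have hrD : (r : ℝ) ≤ D := by
    rw [hD']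
    refine le_trans ?_ (le_mul_of_one_le_left (by positivity) h100)
    nlinarith only [h2p, hr1']
  have hD1 : (1 : ℝ) ≤ D := hr1'.trans hrD
  have hD0 : (0 : ℝ) < D := by linarith only [hD1]
  obtain ⟨P, hP0, hP⟩ : ∃ P : ℝ, 0 < P ∧ 128 * r * (2 ^ (S + 1 + R) * P) = 1 :=
    ⟨1 / (128 * r * 2 ^ (S + 1 + R)), by positivity, by field_simp⟩
  have hP1 : 2 ^ (S + 1 + R) * P ≤ 1 := by
    have : (0 : ℝ) < 2 ^ (S + 1 + R) * P := by positivity
    nlinarith only [hr1', hP, this]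
  obtain ⟨b, hb⟩ : ∃ b : ℝ, b = (1 / 100) ^ (S + 1) := ⟨_, rfl⟩
  have hb0 : 0 < b := by rw [hb]; positivity
  have hb1 : b ≤ 1 := by rw [hb]; exact pow_le_one₀ (by norm_num) (by norm_num)
  have hδ : b * P = 1 / D := by
    rw [eq_div_iff hD0.ne', hD', hb, one_div_pow]
    have : (100 : ℝ) ^ (S + 1) ≠ 0 := by positivity
    calc _ = 128 * r * (2 ^ (S + 1 + R) * P) := by field_simp
      _ = 1 := hP
  obtain ⟨q, hq⟩ : ∃ q : ℝ, q = Real.exp (-tau K S) := ⟨_, rfl⟩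
  have hq0 : 0 < q := by rw [hq]; exact Real.exp_pos _
  have hq1 : q ≤ 1 := by
    rw [hq]; exact Real.exp_le_one_iff.2 (by have := tau_pos hK1 S; linarith only [this])
  have hqD : 1 ≤ q * D := by
    have h1 : Real.exp (tau K S) ≤ 100 ^ (S + 1) := by
      refine (Real.exp_le_exp.2 (tau_le hK1 S)).trans ?_
      have h2 : Real.exp 1 ≤ 100 := by linarith only [Real.exp_one_lt_d9]
      calc _ = Real.exp 1 ^ (S + 1) := by rw [← Real.exp_nat_mul]; push_cast; ring_nf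
        _ ≤ _ := pow_le_pow_left₀ (Real.exp_pos _).le h2 _
    have h2 : (100 : ℝ) ^ (S + 1) ≤ D := by
      rw [hD']
      refine le_mul_of_one_le_right (by positivity) ?_
      nlinarith only [h2p, hr1']
    rw [hq, Real.exp_neg, inv_mul_eq_div, le_div_iff₀ (Real.exp_pos _)]
    linarith only [h1, h2]
  obtain ⟨l, hl⟩ : ∃ l : ℕ, l = 40 * D ^ 2 := ⟨_, rfl⟩
  have hl' : (l : ℝ) = 40 * D ^ 2 := by rw [hl]; push_cast; ring
  revert s
  rw [← hl] at hlw ⊢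
  intro s hyb
  by_contra hcon
  rw [not_le, show (1 : ℝ) / (20 * D) = b * P / 20 by rw [hδ]; field_simp] at hcon
  have hn' : (400 : ℝ) * D ^ 3 ≤ Fintype.card α := by exact_mod_cast hn
  have hM : 400 * (D : ℝ) ^ 2 ≤ b * P * Fintype.card α := by
    rw [hδ, one_div, inv_mul_eq_div, le_div_iff₀ hD0]
    linarith only [hn']
  have hD2 : (D : ℝ) ≤ D ^ 2 := le_self_pow₀ hD1 (by norm_num)
  have hr2 : (r : ℝ) ^ 2 ≤ D ^ 2 := pow_le_pow_left₀ (by positivity) hrD 2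
  have hlw' : (l : ℝ) * w ≤ K * Fintype.card α := by exact_mod_cast hlw
  have hn0 : (0 : ℝ) < Fintype.card α := lt_of_lt_of_le (by positivity) hn'
  have hX0 : (0 : ℝ) < s.X.card := lt_of_le_of_lt (by (clear * - ; positivity)) hcon
  have hX : s.X.Nonempty := Finset.card_pos.1 (by exact_mod_cast hX0)
  have hΩ : (0 : ℝ) < Fintype.card (Om Γ α) := by
    have : (s.X.card : ℝ) ≤ Fintype.card (Om Γ α) := by exact_mod_cast Finset.card_le_univ s.X
    linarith only [hX0, this]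
  have hΔ : Real.log (Fintype.card (Om Γ α) / s.X.card) ≤ P * Fintype.card α / 20 := by
    have h1 : Real.log (Fintype.card (Om Γ α) / s.X.card) ≤ b * P / 20 * Fintype.card α := by
      rw [Real.log_le_iff_le_exp (div_pos hΩ hX0), div_le_iff₀ hX0]
      rw [Real.exp_neg, inv_mul_lt_iff₀ (Real.exp_pos _)] at hcon
      exact hcon.le
    have h2 := mul_le_mul_of_nonneg_right hb1 (show 0 ≤ P * Fintype.card α by positivity)
    linarith only [h1, h2]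
  obtain ⟨p, hp1, hp2, hu, hI⟩ := levels2 s hX (by exact_mod_cast hn0) hK1 hlw' S R hR.ge hP0 hP1 hΔ
  rw [← hq] at hu hI
  rw [← hb] at hu
  have hp0 : 0 < p := lt_of_lt_of_le hP0 hp1
  have hp3 : p ≤ 1 := hp2.trans hP1
  have hpn : 0 < p / 2 * Fintype.card α := by positivity
  obtain ⟨v, hv⟩ : ∃ v : ℝ, v * (p / 2 * Fintype.card α) = s.uu q (p / 2) :=
    ⟨s.uu q (p / 2) / (p / 2 * Fintype.card α), div_mul_cancel₀ _ hpn.ne'⟩
  have hbv : b ≤ v := le_of_mul_le_mul_right (hu.trans hv.ge) hpn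
  have hv0 : 0 < v := hb0.trans_le hbv
  have hv1 : v ≤ 1 := by
    refine le_of_mul_le_mul_right ?_ hpn
    rw [hv, one_mul]
    exact uu_le s hX hq0.le hq1 (by linarith only [hp0]) (by linarith only [hp0, hp3])
  have hbp : b * P ≤ v * p := mul_le_mul hbv hp1 hP0.le hv0.le
  have hbpn : b * P * Fintype.card α ≤ v * p * Fintype.card α :=
    mul_le_mul_of_nonneg_right hbp hn0.le
  have hl2 : Real.exp (-(q * l)) ≤ v * p / 40 := by
    have h1 : 1 / (b * P / 40) ≤ q * l := by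
      rw [hδ, hl', show 1 / (1 / (D : ℝ) / 40) = 40 * D by field_simp]
      nlinarith only [hqD, hD0]
    have := scale_exp_lt (by positivity) h1
    linarith only [hbp, this]
  have hn2 : 2 * Real.exp (-(v * p * Fintype.card α / 5)) < v * p / 30 := by
    have := scale_exp_lt (ε := b * P / 60) (x := v * p * Fintype.card α / 5) (by positivity)
      (by
        rw [hδ, show 1 / (1 / (D : ℝ) / 60) = 60 * D by field_simp]
        linarith only [hM, hbpn, hD2, hD0])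
    linarith only [hbp, this]
  have hvn : 0 ≤ v * (p * Fintype.card α) := by positivity
  obtain ⟨J, A, hJ, hA1, hA2, hrich⟩ :=
    s.extract hX hq0.le hq1 hp0 hp3 hv0 hv1 hv.le (by linarith only [hI, hv, hvn]) hl2 hn2
  have hA12 : 12 ≤ A.card := by
    have : (12 : ℝ) ≤ A.card := by linarith only [hM, hbpn, hD1, hD2, hA1]
    exact_mod_cast this
  have hpow : 2 * (r : ℝ) ^ 2 ≤ (2 : ℝ) ^ ((A.card : ℝ) / 4) := by
    rw [Real.rpow_def_of_pos (by norm_num)]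
    have h1 := Real.add_one_le_exp (Real.log 2 * ((A.card : ℝ) / 4))
    have h2 : (1 / 2 : ℝ) ≤ Real.log 2 := by have := Real.log_two_gt_d9; linarith only [this]
    have h3 := mul_le_mul_of_nonneg_right h2
      (show (0 : ℝ) ≤ (A.card : ℝ) / 4 by (clear * - hA12; positivity))
    linarith only [hM, hbpn, hr2, hD1, hD2, hA1, h1, h3]
  have hsize : 32 * r * A.card ≤ Fintype.card α := by
    have h1 := mul_le_mul_of_nonneg_left hA2 (show (0 : ℝ) ≤ 32 * r by positivity)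
    have h2 := mul_le_mul_of_nonneg_left hp2
      (show (0 : ℝ) ≤ 128 * r * Fintype.card α by positivity)
    have h3 : (128 : ℝ) * r * Fintype.card α * (2 ^ (S + 1 + R) * P) = Fintype.card α := by
      rw [mul_right_comm, hP, one_mul]
    have : (32 : ℝ) * r * A.card ≤ Fintype.card α := by linarith only [h1, h2, h3]
    exact_mod_cast this
  have hd : 128 * r * (J.card * w) ≤ Fintype.card α := by
    have h1 := mul_le_mul_of_nonneg_left hJ (show (0 : ℝ) ≤ 128 * r * w by positivity)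
    have h2 := mul_le_mul_of_nonneg_left hlw' (show (0 : ℝ) ≤ 512 * r * q by positivity)
    rw [← hq, ← hr'] at hS
    have h3 := mul_le_mul_of_nonneg_right hS hn0.le
    have : (128 : ℝ) * r * (J.card * w) ≤ Fintype.card α := by linarith only [h1, h2, h3]
    exact_mod_cast this
  have hsmall := s.rich_small f hf hyb J A r hA12 hr1 hpow hsize hd
  have hbn : 0 ≤ b * P * Fintype.card α := by positivity
  have hnum := scale_num S (a := A.card) (x := b * P / 20 * Fintype.card α)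
    (by linarith only [hbpn, hA1])
  rw [← hr, ← hb] at hnum
  have h1 := mul_le_mul_of_nonneg_right hnum hΩ.le
  have h2 := mul_lt_mul_of_pos_left hcon (show 0 < (b / 20) ^ A.card by positivity)
  have h3 : (b / 20) ^ A.card * (s.X.card : ℝ) ≤ (v / 20) ^ A.card * s.X.card :=
    mul_le_mul_of_nonneg_right (pow_le_pow_left₀ (by positivity) (by linarith only [hbv]) _) hX0.le
  linarith only [hrich, hsmall, h1, h2, h3]

theorem D_le (S : ℕ) :
    100 ^ (S + 1) * (128 * (40 * (S + 2)) * 2 ^ (S + 1 + 16800 * (S + 1) ^ 3)) ≤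
      2 ^ (17000 * (S + 1) ^ 3) := by
  have h1 : 100 ^ (S + 1) ≤ 2 ^ (7 * (S + 1)) := by
    rw [pow_mul]
    exact Nat.pow_le_pow_left (by norm_num) _
  have h2 : 128 * (40 * (S + 2)) ≤ 2 ^ (13 + (S + 2)) := by
    rw [pow_add]
    have := (Nat.lt_two_pow_self (n := S + 2)).le
    omega
  have h3 : S + 1 ≤ (S + 1) ^ 3 := Nat.le_self_pow (by norm_num) _
  calc _ ≤ 2 ^ (7 * (S + 1)) * (2 ^ (13 + (S + 2)) * 2 ^ (S + 1 + 16800 * (S + 1) ^ 3)) :=
        Nat.mul_le_mul h1 (Nat.mul_le_mul_right _ h2)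
    _ = 2 ^ (7 * (S + 1) + (13 + (S + 2) + (S + 1 + 16800 * (S + 1) ^ 3))) := by
        rw [← pow_add, ← pow_add]
    _ ≤ _ := Nat.pow_le_pow_right (by norm_num) (by omega)

theorem D_pos (S : ℕ) :
    0 < 100 ^ (S + 1) * (128 * (40 * (S + 2)) * 2 ^ (S + 1 + 16800 * (S + 1) ^ 3)) :=
  Nat.mul_pos (Nat.pow_pos (by norm_num)) (Nat.mul_pos (by omega) (Nat.two_pow_pos _))

theorem main_D (k S D : ℕ)
    (hS : 512 * (40 * ((S : ℝ) + 2)) * ((k + 1 : ℕ) : ℝ) * Real.exp (-tau ((k + 1 : ℕ) : ℝ) S) ≤ 1)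
    (hD : D = 100 ^ (S + 1) * (128 * (40 * (S + 2)) * 2 ^ (S + 1 + 16800 * (S + 1) ^ 3)))
    (n : ℕ) (V : Type) [Fintype V] (B : NBP (Fin 3 × Fin n) V)
    (hB : B.ComputesIn (Hard n) (k * n)) :
    n ≤ 1000 * D ^ 3 * (Nat.clog 2 (Fintype.card V) + 1) := by
  have hD0 : 0 < D := (D_pos S).trans_eq hD.symm
  have hcore := core2 (k + 1) S D (by omega) hS hD
  clear hD hS
  set L := Nat.clog 2 (Fintype.card V) with hL
  have hD2 : D ^ 2 ≤ D ^ 3 := Nat.pow_le_pow_right hD0 (by norm_num)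
  have hD3 : 1 ≤ D ^ 2 := Nat.one_le_pow _ _ hD0
  by_cases hn : n ≤ 1000 * D ^ 3
  · exact hn.trans (Nat.le_mul_of_pos_right _ (by omega))
  push Not at hn
  obtain ⟨c₀, hDi, hdens⟩ := exists_restriction n (by omega)
  obtain ⟨s, hs1, hs2⟩ := nd_trace c₀ B (Hard n) (k * n) (40 * D ^ 2) (by omega) hB
  have hlw : 40 * D ^ 2 * (k * n / (40 * D ^ 2) + 1) ≤ (k + 1) * Fintype.card (Fin n) := by
    have := Nat.mul_div_le (k * n) (40 * D ^ 2)
    rw [Fintype.card_fin, mul_add, add_mul]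
    omega
  have h1 := hcore (Fin n) (Fin n → Bool) _ s _ hDi hs1 hlw (by rw [Fintype.card_fin]; omega)
  rw [Fintype.card_fin] at h1
  have hV : Fintype.card V ≤ 2 ^ L := Nat.le_pow_clog (by norm_num) _
  have hN : (0 : ℝ) < Fintype.card (Om (Fin n → Bool) (Fin n)) := by
    exact_mod_cast Fintype.card_pos
  have hl' : ((40 * D ^ 2 : ℕ) : ℝ) = 40 * (D : ℝ) ^ 2 := by push_cast; ring
  have hXc : (0 : ℝ) ≤ s.X.card := Nat.cast_nonneg _
  generalize s.X.card = X at h1 hs2 hXc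
  generalize 40 * D ^ 2 = l at hs2 hl'
  have h2 : Fintype.card (Om (Fin n → Bool) (Fin n)) ≤ 2 ^ ((l + 3) * (L + 1)) * X := by
    calc _ ≤ 4 * (Fintype.card V ^ (l + 1) * X) := hdens.trans (Nat.mul_le_mul_left _ hs2)
      _ ≤ 4 * ((2 ^ L) ^ (l + 1) * X) := by gcongr
      _ = 2 ^ (2 + L * (l + 1)) * X := by rw [← pow_mul, pow_add]; ring
      _ ≤ _ := Nat.mul_le_mul_right _ (Nat.pow_le_pow_right (by norm_num) (by nlinarith only []))
  generalize Fintype.card (Om (Fin n → Bool) (Fin n)) = Ω at h1 h2 hN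
  have h3 : (Ω : ℝ) ≤ Real.exp (((l : ℝ) + 3) * (L + 1)) * X := by
    have h4 : (2 : ℝ) ^ ((l + 3) * (L + 1)) ≤ Real.exp (((l : ℝ) + 3) * (L + 1)) := by
      have h5 : (2 : ℝ) ≤ Real.exp 1 := by
        have := Real.add_one_le_exp (1 : ℝ)
        linarith only [this]
      calc (2 : ℝ) ^ ((l + 3) * (L + 1)) ≤ (Real.exp 1) ^ ((l + 3) * (L + 1)) := by gcongr
        _ = _ := by rw [← Real.exp_nat_mul]; push_cast; ring_nf
    calc _ ≤ (2 : ℝ) ^ ((l + 3) * (L + 1)) * X := by exact_mod_cast h2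
      _ ≤ _ := by gcongr
  have h6 : (1 : ℝ) ≤ Real.exp (((l : ℝ) + 3) * (L + 1) - 1 / (20 * D) * n) := by
    have h7 : (Ω : ℝ) * 1 ≤ (Ω : ℝ) * Real.exp (((l : ℝ) + 3) * (L + 1) - 1 / (20 * D) * n) := by
      calc _ ≤ Real.exp (((l : ℝ) + 3) * (L + 1)) * X := by rw [mul_one]; exact h3
        _ ≤ Real.exp (((l : ℝ) + 3) * (L + 1)) * (Real.exp (-(1 / (20 * D) * n)) * Ω) := by gcongr
        _ = _ := by rw [sub_eq_add_neg, Real.exp_add]; ring
    exact le_of_mul_le_mul_left h7 hN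
  have hD1 : (1 : ℝ) ≤ D := by exact_mod_cast hD0
  have h8 : (n : ℝ) ≤ ((l : ℝ) + 3) * (L + 1) * (20 * D) := by
    have := Real.one_le_exp_iff.1 h6
    rw [sub_nonneg, one_div, inv_mul_eq_div, div_le_iff₀ (by linarith only [hD1])] at this
    exact this
  have h9 : ((l : ℝ) + 3) * (20 * D) ≤ 1000 * D ^ 3 := by
    have : (D : ℝ) ≤ D ^ 3 := le_self_pow₀ hD1 (by norm_num)
    rw [hl']
    linarith only [this, hD1]
  have h10 : (n : ℝ) ≤ 1000 * D ^ 3 * (L + 1) := by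
    have := mul_le_mul_of_nonneg_right h9 (show (0 : ℝ) ≤ L + 1 by positivity)
    linarith only [this, h8]
  exact_mod_cast h10

theorem nd_tradeoff : ∃ L ∈ N68a2faeb.P, ∃ C : ℕ, ∀ n k : ℕ, 2 ≤ k → ∀ (S : Type) [Fintype S]
    (B : NBP (Fin n) S), B.ComputesIn (fun w => L (List.ofFn w) = true) (k * n) →
    n ≤ 2 ^ k ^ C * (Nat.clog 2 (Fintype.card S) + 1) := by
  obtain ⟨C, hC⟩ := exists_level2
  refine ⟨hardB, hardB_mem, 4 * C * 3 + 16, fun n k hk V _ B h => ?_⟩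
  obtain ⟨S, hS1, hS2⟩ := hC (5 * k + 1) (by omega)
  have hk4 : 5 * k + 1 ≤ k ^ 4 := by
    have h1 : 2 ^ 3 ≤ k ^ 3 := Nat.pow_le_pow_left hk 3
    rw [pow_succ]
    nlinarith
  have hS3 : (S + 1) ^ 3 ≤ k ^ (4 * C * 3) := by
    rw [pow_mul, pow_mul]
    exact Nat.pow_le_pow_left (hS1.trans (Nat.pow_le_pow_left hk4 _)) _
  have hS4 : 1 ≤ (S + 1) ^ 3 := Nat.one_le_pow _ _ (by omega)
  have hE : 17000 * (S + 1) ^ 3 * 3 + 12 ≤ k ^ (4 * C * 3 + 16) := by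
    have h1 : 2 ^ 16 ≤ k ^ 16 := Nat.pow_le_pow_left hk 16
    have h2 := Nat.mul_le_mul hS3 h1
    rw [pow_add]
    omega
  obtain ⟨D, hD⟩ : ∃ D : ℕ, D = 100 ^ (S + 1) *
      (128 * (40 * (S + 2)) * 2 ^ (S + 1 + 16800 * (S + 1) ^ 3)) := ⟨_, rfl⟩
  have hD1 : D ≤ 2 ^ (17000 * (S + 1) ^ 3) := hD.le.trans (D_le S)
  have hD0 : 0 < D := (D_pos S).trans_eq hD.symm
  have hD2 : 4096 * D ^ 3 ≤ 2 ^ k ^ (4 * C * 3 + 16) := by
    calc _ ≤ 2 ^ 12 * (2 ^ (17000 * (S + 1) ^ 3)) ^ 3 :=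
          Nat.mul_le_mul (by norm_num) (Nat.pow_le_pow_left hD1 3)
      _ = 2 ^ (17000 * (S + 1) ^ 3 * 3 + 12) := by rw [← pow_mul, ← pow_add, add_comm]
      _ ≤ _ := Nat.pow_le_pow_right (by norm_num) hE
  have hD3 : 1 ≤ D ^ 3 := Nat.one_le_pow _ _ hD0
  refine le_trans ?_ (Nat.mul_le_mul_right _ hD2)
  have hm := fun h5 => main_D (5 * k) S D hS2 hD (n / 3) V (resN B) (computes_res h5 h)
  clear hD hS2 hD1 hD2 hE
  generalize D ^ 3 = E at hD3 hm ⊢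
  have h0 : E ≤ E * (Nat.clog 2 (Fintype.card V) + 1) := Nat.le_mul_of_pos_right _ (by omega)
  rw [mul_assoc]
  by_cases hn : n / 3 = 0
  · omega
  · have h5 : k * n ≤ 5 * k * (n / 3) := by
      have : n ≤ 5 * (n / 3) := by omega
      nlinarith [Nat.mul_le_mul_left k this]
    have := hm h5
    rw [mul_assoc] at this
    omega

/-- The explicit bound implies the earlier form. -/
theorem old_of_new : ∃ L ∈ N68a2faeb.P, ∀ k : ℕ, ∃ c : ℕ, ∀ (n : ℕ) (S : Type) [Fintype S]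
    (B : NBP (Fin n) S), B.ComputesIn (fun w => L (List.ofFn w) = true) (k * n) →
    n ≤ c * (Nat.clog 2 (Fintype.card S) + 1) := by
  obtain ⟨L, hL, C, h⟩ := nd_tradeoff
  refine ⟨L, hL, fun k => ⟨2 ^ (k + 2) ^ C, fun n S _ B hB => h n (k + 2) (by omega) S B fun w => ?_⟩⟩
  obtain ⟨h1, h2⟩ := hB w
  refine ⟨fun hw => ?_, h2⟩
  obtain ⟨m, hm, h3⟩ := h1 hw
  exact ⟨m, hm.trans (Nat.mul_le_mul_right _ (by omega)), h3⟩

end Pool.Agent.Work.MP_807b32_lc.TQ
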